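import Mathlib

set_option autoImplicit false

open Topology Filter Set

namespace Pool.Agent.U682.SkA

universe u v w

/-- `r` is an r-skeleton in the space `L`, indexed by the nonempty up-directed poset `Γ`:
continuous retractions with metrizable ranges, `r s = r s ∘ r t = r t ∘ r s` for `s ≤ t`, suprema of
increasing sequences exist in `Γ` and `r` is continuous along them, and `r s x → x` for all `x`. -/
structure IsRSkeleton {Γ : Type v} [PartialOrder Γ] {L : Type u} [TopologicalSpace L]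
    (r : Γ → L → L) : Prop where
  nonempty : Nonempty Γ
  directed : ∀ s t : Γ, ∃ u, s ≤ u ∧ t ≤ u
  continuous : ∀ s, Continuous (r s)
  idem : ∀ s x, r s (r s x) = r s x
  metrizable : ∀ s, TopologicalSpace.MetrizableSpace (range (r s))
  comp_left : ∀ s t, s ≤ t → ∀ x, r s (r t x) = r s x
  comp_right : ∀ s t, s ≤ t → ∀ x, r t (r s x) = r s x
  sup : ∀ s : ℕ → Γ, StrictMono s → ∃ t, IsLUB (range s) t ∧
    ∀ x, Tendsto (fun n => r (s n) x) atTop (𝓝 (r t x))
  lim : ∀ x, Tendsto (fun s => r s x) atTop (𝓝 x)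

/-- `P` is a 1-projectional skeleton in the normed space `X`, indexed by the nonempty up-directed
poset `Γ`: bounded projections of norm at most one with separable ranges covering `X`,
`P s = P s ∘ P t = P t ∘ P s` for `s ≤ t`, and for `s 0 < s 1 < ...` the supremum `t` exists and the
range of `P t` is the closure of the union of the ranges of the `P (s n)`. -/
structure IsOneProjSkeleton {Γ : Type v} [PartialOrder Γ] {X : Type u}
    [NormedAddCommGroup X] [NormedSpace ℝ X] (P : Γ → X →L[ℝ] X) : Prop where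
  nonempty : Nonempty Γ
  directed : ∀ s t : Γ, ∃ u, s ≤ u ∧ t ≤ u
  idem : ∀ s x, P s (P s x) = P s x
  norm_le : ∀ s, ‖P s‖ ≤ 1
  separable : ∀ s, TopologicalSpace.IsSeparable (range (P s))
  cover : (⋃ s, range (P s)) = univ
  comp_left : ∀ s t, s ≤ t → ∀ x, P s (P t x) = P s x
  comp_right : ∀ s t, s ≤ t → ∀ x, P t (P s x) = P s x
  sup : ∀ s : ℕ → Γ, StrictMono s → ∃ t, IsLUB (range s) t ∧
    range (P t) = closure (⋃ n, range (P (s n)))

section Order

variable {Γ : Type v} [PartialOrder Γ] {L : Type u} [TopologicalSpace L] {r : Γ → L → L}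

theorem exists_sup (h : IsRSkeleton r) (s : ℕ → Γ) (hs : Monotone s) :
    ∃ t, (∀ n, s n ≤ t) ∧ ∃ k : ℕ → ℕ, ∀ x, Tendsto (fun n => r (s (k n)) x) atTop (𝓝 (r t x)) := by
  by_cases hN : ∃ n, ∀ m, s m ≤ s n
  · obtain ⟨n, hn⟩ := hN
    exact ⟨s n, hn, fun _ => n, fun x => tendsto_const_nhds⟩
  · push Not at hN
    choose m hm using hN
    have hlt : ∀ n, s n < s (m n) := by
      intro n
      have h1 : n ≤ m n := by
        by_contra hc
        exact hm n (hs (by omega))
      exact lt_of_le_of_ne (hs h1) (fun he => hm n he.ge)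
    have hnm : ∀ n, n < m n := by
      intro n
      by_contra hc
      exact hm n (hs (by omega))
    let k : ℕ → ℕ := fun n => Nat.rec 0 (fun _ a => m a) n
    have hk : ∀ n, k (n + 1) = m (k n) := fun n => rfl
    have hks : StrictMono k := strictMono_nat_of_lt_succ (fun n => by rw [hk]; exact hnm _)
    have hss : StrictMono (fun n => s (k n)) :=
      strictMono_nat_of_lt_succ (fun n => by simp only [hk]; exact hlt _)
    obtain ⟨t, ht, htl⟩ := h.sup _ hss
    refine ⟨t, fun n => ?_, k, htl⟩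
    exact (hs (hks.id_le n)).trans (ht.1 ⟨n, rfl⟩)

theorem exists_ub (h : IsRSkeleton r) (s0 : Γ) (u : ℕ → Γ) : ∃ t, s0 ≤ t ∧ ∀ n, u n ≤ t := by
  choose j hj1 hj2 using h.directed
  let v : ℕ → Γ := fun n => Nat.rec s0 (fun n a => j a (u n)) n
  have hv : ∀ n, v (n + 1) = j (v n) (u n) := fun n => rfl
  have hmono : Monotone v := monotone_nat_of_le_succ (fun n => by rw [hv]; exact hj1 _ _)
  obtain ⟨t, ht, -⟩ := exists_sup h v hmono
  exact ⟨t, ht 0, fun n => (hj2 (v n) (u n)).trans (ht (n + 1))⟩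

end Order

/-- The Stone-Weierstrass argument for a directed family of retractions. -/
theorem unif_approx {ι : Type v} [Preorder ι] (hne : Nonempty ι)
    (hdir : ∀ i j : ι, ∃ k, i ≤ k ∧ j ≤ k) {L : Type u} [TopologicalSpace L]
    [CompactSpace L] [T2Space L] (ρ : ι → L → L) (hc : ∀ i, Continuous (ρ i))
    (hcomp : ∀ i j, i ≤ j → ∀ x, ρ i (ρ j x) = ρ i x)
    (hlim : ∀ x, Tendsto (fun i => ρ i x) atTop (𝓝 x)) (g : C(L, ℝ)) (ε : ℝ) (hε : 0 < ε) :
    ∃ i, ∀ j, i ≤ j → ∀ x, |g (ρ j x) - g x| < ε := by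
  have : IsDirectedOrder ι := ⟨fun i j => hdir i j⟩
  have := hne
  let A : Subalgebra ℝ C(L, ℝ) :=
    { carrier := {f | ∃ i, ∀ j, i ≤ j → ∀ x, f (ρ j x) = f x}
      mul_mem' := by
        rintro f g ⟨i, hi⟩ ⟨i', hi'⟩
        obtain ⟨k, hk, hk'⟩ := hdir i i'
        refine ⟨k, fun j hj x => ?_⟩
        simp only [ContinuousMap.mul_apply]
        rw [hi j (hk.trans hj) x, hi' j (hk'.trans hj) x]
      add_mem' := by
        rintro f g ⟨i, hi⟩ ⟨i', hi'⟩
        obtain ⟨k, hk, hk'⟩ := hdir i i'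
        refine ⟨k, fun j hj x => ?_⟩
        simp only [ContinuousMap.add_apply]
        rw [hi j (hk.trans hj) x, hi' j (hk'.trans hj) x]
      algebraMap_mem' := by
        intro c
        obtain ⟨i⟩ := hne
        exact ⟨i, fun j _ x => by simp⟩ }
  have hsep : A.SeparatesPoints := by
    intro x y hxy
    obtain ⟨U, V, hU, hV, hxU, hyV, hUV⟩ := t2_separation hxy
    obtain ⟨i, hiU, hiV⟩ := ((hlim x).eventually (hU.mem_nhds hxU)).and
      ((hlim y).eventually (hV.mem_nhds hyV)) |>.exists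
    have hne' : ρ i x ≠ ρ i y := fun he => (Set.disjoint_left.1 hUV) hiU (he ▸ hiV)
    obtain ⟨g, hg0, hg1, -⟩ := exists_continuous_zero_one_of_isClosed
      (isClosed_singleton (x := ρ i x)) (isClosed_singleton (x := ρ i y))
      (by simpa using hne')
    refine ⟨fun z => g (ρ i z), ?_, ?_⟩
    · refine ⟨g.comp ⟨ρ i, hc i⟩, ⟨i, fun j hj z => ?_⟩, rfl⟩
      simp only [ContinuousMap.comp_apply, ContinuousMap.coe_mk]
      rw [hcomp i j hj]
    · have e1 : g (ρ i x) = 0 := hg0 (mem_singleton _)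
      have e2 : g (ρ i y) = 1 := hg1 (mem_singleton _)
      simp only [e1, e2]
      norm_num
  have htop := ContinuousMap.subalgebra_topologicalClosure_eq_top_of_separatesPoints A hsep
  have hg : g ∈ A.topologicalClosure := by rw [htop]; trivial
  have hg' : g ∈ closure (A : Set C(L, ℝ)) := hg
  obtain ⟨f, ⟨i, hi⟩, hf⟩ := Metric.mem_closure_iff.1 hg' (ε / 2) (by linarith)
  refine ⟨i, fun j hj x => ?_⟩
  have h1 : ∀ z, |g z - f z| ≤ dist g f := fun z => by
    have := ContinuousMap.dist_apply_le_dist (f := g) (g := f) z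
    rwa [Real.dist_eq] at this
  have h2 := h1 (ρ j x)
  have h3 := h1 x
  have h4 := hi j hj x
  rw [h4] at h2
  have : g (ρ j x) - g x = (g (ρ j x) - f x) - (g x - f x) := by ring
  rw [this]
  calc _ ≤ |g (ρ j x) - f x| + |g x - f x| := abs_sub _ _
    _ < ε := by linarith

theorem eventually_fix {Γ : Type v} [PartialOrder Γ] {L : Type u} [TopologicalSpace L]
    {r : Γ → L → L} [CompactSpace L] [T2Space L] (h : IsRSkeleton r) (f : C(L, ℝ)) :
    ∃ s, ∀ t, s ≤ t → ∀ x, f (r t x) = f x := by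
  have := fun n : ℕ => unif_approx h.nonempty h.directed r h.continuous h.comp_left h.lim f
    (1 / ((n : ℝ) + 1)) (by positivity)
  choose i hi using this
  obtain ⟨t, -, ht⟩ := exists_ub h (Classical.choice h.nonempty) i
  refine ⟨t, fun t' ht' x => ?_⟩
  have hb : ∀ n : ℕ, |f (r t' x) - f x| < 1 / ((n : ℝ) + 1) := fun n =>
    hi n t' ((ht n).trans ht') x
  by_contra hne
  have hpos : 0 < |f (r t' x) - f x| := abs_pos.2 (sub_ne_zero.2 hne)
  obtain ⟨n, hn⟩ := exists_nat_one_div_lt hpos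
  exact absurd (hb n) (by linarith)

end Pool.Agent.U682.SkA
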