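import Pool.Agent.U682.SkA

set_option autoImplicit false

open Topology Filter Set

namespace Pool.Agent.U682.SkB

open Pool.Agent.U682.SkA

universe u v w

variable {X : Type u} [NormedAddCommGroup X] [NormedSpace ℝ X]
variable {Γ : Type v} [PartialOrder Γ] {L : Set (WeakDual ℝ X)} {r : Γ → L → L}

theorem eval_continuous (f : X) : Continuous (fun x : L => (x : WeakDual ℝ X) f) :=
  (WeakDual.eval_continuous f).comp continuous_subtype_val

theorem exists_sep (hL : IsCompact L) (h : IsRSkeleton r) (s : Γ) :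
    ∃ F : ℕ → X, ∀ x y : L, (∀ n, (x : WeakDual ℝ X) (F n) = (y : WeakDual ℝ X) (F n)) →
      r s x = r s y := by
  have : CompactSpace L := isCompact_iff_compactSpace.1 hL
  have := h.metrizable s
  let _ := TopologicalSpace.metrizableSpaceMetric (range (r s))
  let q : L × L → range (r s) × range (r s) := fun p => (⟨r s p.1, p.1, rfl⟩, ⟨r s p.2, p.2, rfl⟩)
  have hq : Continuous q :=
    (((h.continuous s).comp continuous_fst).subtype_mk _).prodMk
      (((h.continuous s).comp continuous_snd).subtype_mk _)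
  have hU : IsOpen {p : range (r s) × range (r s) | p.1 ≠ p.2} :=
    isOpen_ne_fun continuous_fst continuous_snd
  obtain ⟨C, hC, hCU, hCun, -⟩ := hU.exists_iUnion_isClosed
  have hlin : IsLindelof (⋃ n, q ⁻¹' (C n)) :=
    isLindelof_iUnion (fun n => ((hC n).preimage hq).isCompact.isLindelof)
  obtain ⟨R, hR, hRU⟩ := hlin.elim_countable_subcover
    (fun f : X => {p : L × L | (p.1 : WeakDual ℝ X) f ≠ (p.2 : WeakDual ℝ X) f})
    (fun f => isOpen_ne_fun ((eval_continuous f).comp continuous_fst)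
      ((eval_continuous f).comp continuous_snd))
    (by
      rintro ⟨x, y⟩ hxy
      obtain ⟨n, hn⟩ := mem_iUnion.1 hxy
      have h1 : q (x, y) ∈ {p : range (r s) × range (r s) | p.1 ≠ p.2} := hCU n hn
      have h2 : x ≠ y := by
        rintro rfl
        exact h1 rfl
      have h3 : (x : WeakDual ℝ X) ≠ y := fun he => h2 (Subtype.ext he)
      obtain ⟨f, hf⟩ := DFunLike.ne_iff.1 h3
      exact mem_iUnion.2 ⟨f, hf⟩)
  obtain ⟨F, hF⟩ := (hR.insert (0 : X)).exists_eq_range (insert_nonempty _ _)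
  refine ⟨F, fun x y hxy => ?_⟩
  by_contra hne
  have h1 : (x, y) ∈ ⋃ n, q ⁻¹' (C n) := by
    have h2 : q (x, y) ∈ {p : range (r s) × range (r s) | p.1 ≠ p.2} := by
      intro he
      exact hne (congrArg Subtype.val he)
    rw [← hCun] at h2
    obtain ⟨n, hn⟩ := mem_iUnion.1 h2
    exact mem_iUnion.2 ⟨n, hn⟩
  obtain ⟨f, hf⟩ := mem_iUnion.1 (hRU h1)
  obtain ⟨hfR, hf2⟩ := mem_iUnion.1 hf
  have : f ∈ range F := by rw [← hF]; exact mem_insert_of_mem _ hfR
  obtain ⟨n, rfl⟩ := this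
  exact hf2 (hxy n)

theorem mem_range_iff (h : IsRSkeleton r) (s : Γ) (x : L) : x ∈ range (r s) ↔ r s x = x :=
  ⟨by rintro ⟨y, rfl⟩; exact h.idem s y, fun hx => ⟨x, hx⟩⟩

/-- The combination `a x + b y`. -/
noncomputable def comb (A : Set (ℝ × ℝ))
    (hAL : ∀ p ∈ A, ∀ x y : L, p.1 • (x : WeakDual ℝ X) + p.2 • (y : WeakDual ℝ X) ∈ L)
    (p : A) (x y : L) : L :=
  ⟨p.1.1 • (x : WeakDual ℝ X) + p.1.2 • (y : WeakDual ℝ X), hAL p.1 p.2 x y⟩

theorem comb_continuous (A : Set (ℝ × ℝ))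
    (hAL : ∀ p ∈ A, ∀ x y : L, p.1 • (x : WeakDual ℝ X) + p.2 • (y : WeakDual ℝ X) ∈ L) :
    Continuous (fun q : A × L × L => comb A hAL q.1 q.2.1 q.2.2) := by
  refine Continuous.subtype_mk ?_ _
  have h1 : Continuous (fun q : A × L × L => q.1.1.1) := by fun_prop
  have h2 : Continuous (fun q : A × L × L => q.1.1.2) := by fun_prop
  have h3 : Continuous (fun q : A × L × L => (q.2.1 : WeakDual ℝ X)) := by fun_prop
  have h4 : Continuous (fun q : A × L × L => (q.2.2 : WeakDual ℝ X)) := by fun_prop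
  exact (h1.smul h3).add (h2.smul h4)

theorem comb_apply (A : Set (ℝ × ℝ))
    (hAL : ∀ p ∈ A, ∀ x y : L, p.1 • (x : WeakDual ℝ X) + p.2 • (y : WeakDual ℝ X) ∈ L)
    (p : A) (x y : L) (f : X) :
    (comb A hAL p x y : WeakDual ℝ X) f =
      p.1.1 * (x : WeakDual ℝ X) f + p.1.2 * (y : WeakDual ℝ X) f := rfl

theorem comb_tendsto (A : Set (ℝ × ℝ))
    (hAL : ∀ p ∈ A, ∀ x y : L, p.1 • (x : WeakDual ℝ X) + p.2 • (y : WeakDual ℝ X) ∈ L)
    (p : A) {a b : ℕ → L} {x y : L} (ha : Tendsto a atTop (𝓝 x)) (hb : Tendsto b atTop (𝓝 y)) :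
    Tendsto (fun n => comb A hAL p (a n) (b n)) atTop (𝓝 (comb A hAL p x y)) := by
  have h1 : Tendsto (fun n => (p, a n, b n)) atTop (𝓝 (p, x, y)) :=
    tendsto_const_nhds.prodMk_nhds (ha.prodMk_nhds hb)
  have h2 : Tendsto (fun q : A × L × L => comb A hAL q.1 q.2.1 q.2.2) (𝓝 (p, x, y))
      (𝓝 (comb A hAL p x y)) := (comb_continuous A hAL).tendsto (p, x, y)
  exact Tendsto.comp (f := fun n => (p, a n, b n))
    (g := fun q : A × L × L => comb A hAL q.1 q.2.1 q.2.2) h2 h1

/-- one step of the construction -/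
theorem exists_step (hL : IsCompact L) (h : IsRSkeleton r) (A : Set (ℝ × ℝ))
    (hAL : ∀ p ∈ A, ∀ x y : L, p.1 • (x : WeakDual ℝ X) + p.2 • (y : WeakDual ℝ X) ∈ L)
    (hAD : ∀ (p : A) (x y : L), (∃ s, x ∈ range (r s)) → (∃ s, y ∈ range (r s)) →
      ∃ s, comb A hAL p x y ∈ range (r s)) (s : Γ) :
    ∃ s', s ≤ s' ∧ (∀ p x y, comb A hAL p (r s x) (r s y) ∈ range (r s')) ∧
      ∃ F : ℕ → X, (∀ x y : L, (∀ n, (x : WeakDual ℝ X) (F n) = (y : WeakDual ℝ X) (F n)) →
        r s x = r s y) ∧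
        ∀ t, s' ≤ t → ∀ n (x : L), (r t x : WeakDual ℝ X) (F n) = (x : WeakDual ℝ X) (F n) := by
  have : CompactSpace L := isCompact_iff_compactSpace.1 hL
  obtain ⟨F, hF⟩ := exists_sep hL h s
  choose u hu using fun n => eventually_fix h ⟨fun x : L => (x : WeakDual ℝ X) (F n),
    eval_continuous (F n)⟩
  obtain ⟨s1, hs1, hs1u⟩ := exists_ub h s u
  have := h.metrizable s
  let _ := TopologicalSpace.metrizableSpaceMetric (range (r s))
  have : CompactSpace (range (r s)) := isCompact_iff_compactSpace.1 (isCompact_range (h.continuous s))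
  -- countable dense subset of the combinations
  let M := range (r s)
  have hcs : SecondCountableTopology M := inferInstance
  obtain ⟨Q, hQc, hQd⟩ := TopologicalSpace.exists_countable_dense (A × M × M)
  by_cases hne : Q.Nonempty
  · obtain ⟨e, he⟩ := hQc.exists_eq_range hne
    let m : A × M × M → L := fun q => comb A hAL q.1 q.2.1.1 q.2.2.1
    have hm : Continuous m := (comb_continuous A hAL).comp
      (continuous_fst.prodMk ((continuous_subtype_val.comp
        (continuous_fst.comp continuous_snd)).prodMk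
        (continuous_subtype_val.comp (continuous_snd.comp continuous_snd))))
    have hD : ∀ n, ∃ s, m (e n) ∈ range (r s) := fun n =>
      hAD _ _ _ ⟨s, (e n).2.1.2⟩ ⟨s, (e n).2.2.2⟩
    choose u' hu' using hD
    obtain ⟨s', hs', hs'u⟩ := exists_ub h s1 u'
    refine ⟨s', hs1.trans hs', fun p x y => ?_, F, hF, fun t ht n x => hu n t
      ((hs1u n).trans (hs'.trans ht)) x⟩
    rw [mem_range_iff h]
    have hclosed : IsClosed {q : A × M × M | r s' (m q) = m q} :=
      isClosed_eq ((h.continuous s').comp hm) hm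
    have hsub : Q ⊆ {q : A × M × M | r s' (m q) = m q} := by
      intro q hq
      rw [he] at hq
      obtain ⟨n, rfl⟩ := hq
      have h1 := (mem_range_iff h _ _).1 (hu' n)
      show r s' (m (e n)) = m (e n)
      rw [← h1, h.comp_right _ _ (hs'u n)]
    have hall : closure Q ⊆ {q : A × M × M | r s' (m q) = m q} := closure_minimal hsub hclosed
    exact hall (hQd (p, ⟨r s x, x, rfl⟩, ⟨r s y, y, rfl⟩))
  · refine ⟨s1, hs1, fun p x y => ?_, F, hF, fun t ht n x => hu n t ((hs1u n).trans ht) x⟩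
    exfalso
    have : (p, (⟨r s x, x, rfl⟩ : M), (⟨r s y, y, rfl⟩ : M)) ∈ closure Q := hQd _
    rw [not_nonempty_iff_eq_empty.1 hne] at this
    simp at this

theorem exists_hom (hL : IsCompact L) (h : IsRSkeleton r) (A : Set (ℝ × ℝ))
    (hAL : ∀ p ∈ A, ∀ x y : L, p.1 • (x : WeakDual ℝ X) + p.2 • (y : WeakDual ℝ X) ∈ L)
    (hAD : ∀ (p : A) (x y : L), (∃ s, x ∈ range (r s)) → (∃ s, y ∈ range (r s)) →
      ∃ s, comb A hAL p x y ∈ range (r s)) (s0 : Γ) :
    ∃ t, s0 ≤ t ∧ ∀ p x y, r t (comb A hAL p x y) = comb A hAL p (r t x) (r t y) := by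
  have : CompactSpace L := isCompact_iff_compactSpace.1 hL
  choose nxt h1 h2 F h3 h4 using exists_step hL h A hAL hAD
  let v : ℕ → Γ := fun n => Nat.rec s0 (fun _ a => nxt a) n
  have hv : ∀ n, v (n + 1) = nxt (v n) := fun n => rfl
  have hmono : Monotone v := monotone_nat_of_le_succ (fun n => by rw [hv]; exact h1 _)
  obtain ⟨t, ht, k, hk⟩ := exists_sup h v hmono
  refine ⟨t, ht 0, fun p x y => ?_⟩
  -- the range of `r t` is closed under combinations
  have hfix : r t (comb A hAL p (r t x) (r t y)) = comb A hAL p (r t x) (r t y) := by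
    have e1 : Tendsto (fun n => comb A hAL p (r (v (k n)) x) (r (v (k n)) y)) atTop
        (𝓝 (comb A hAL p (r t x) (r t y))) := comb_tendsto A hAL p (hk x) (hk y)
    have e2 : Tendsto (fun n => r t (comb A hAL p (r (v (k n)) x) (r (v (k n)) y))) atTop
        (𝓝 (r t (comb A hAL p (r t x) (r t y)))) := ((h.continuous t).tendsto _).comp e1
    have e3 : ∀ m, r t (comb A hAL p (r (v m) x) (r (v m) y)) =
        comb A hAL p (r (v m) x) (r (v m) y) := by
      intro m
      have := (mem_range_iff h _ _).1 (h2 (v m) p x y)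
      rw [← this, h.comp_right _ _ (by rw [← hv]; exact ht (m + 1))]
    refine tendsto_nhds_unique e2 (e1.congr (fun n => ?_))
    exact (e3 (k n)).symm
  have key : ∀ m, r (v m) (r t (comb A hAL p x y)) = r (v m) (comb A hAL p (r t x) (r t y)) := by
    intro m
    apply h3 (v m)
    intro n
    have hle : nxt (v m) ≤ t := by rw [← hv]; exact ht (m + 1)
    rw [h4 (v m) t hle n, comb_apply, comb_apply, h4 (v m) t hle n, h4 (v m) t hle n]
  have l1 := hk (r t (comb A hAL p x y))
  have l2 := hk (comb A hAL p (r t x) (r t y))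
  have l3 := tendsto_nhds_unique l1 (l2.congr (fun n => (key (k n)).symm))
  rw [h.idem, hfix] at l3
  exact l3

end Pool.Agent.U682.SkB
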