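import Pool.Agent.U682.SkB

set_option autoImplicit false

open Topology Filter Set

namespace Pool.Agent.U682.SkC

open Pool.Agent.U682.SkA Pool.Agent.U682.SkB

universe u v w

variable {K : Type u} [TopologicalSpace K]

/-- The Dirac functional. -/
noncomputable def dirac (k : K) : WeakDual ℝ C(K, ℝ) :=
  StrongDual.toWeakDual (ContinuousMap.evalCLM ℝ k)

theorem dirac_apply (k : K) (f : C(K, ℝ)) : dirac k f = f k := rfl

theorem dirac_continuous : Continuous (dirac : K → WeakDual ℝ C(K, ℝ)) :=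
  WeakDual.continuous_of_continuous_eval (fun f => f.continuous)

variable [CompactSpace K] {Γ : Type v} [PartialOrder Γ] {L : Set (WeakDual ℝ C(K, ℝ))} {r : Γ → L → L}

/-- The operators of the skeleton. -/
noncomputable def proj (hδ : ∀ k, dirac k ∈ L) (hb : ∀ φ ∈ L, ∀ f : C(K, ℝ), |φ f| ≤ ‖f‖)
    (h : IsRSkeleton r) (s : Γ) : C(K, ℝ) →L[ℝ] C(K, ℝ) :=
  LinearMap.mkContinuous
    { toFun := fun f => ⟨fun k => (r s ⟨dirac k, hδ k⟩ : WeakDual ℝ C(K, ℝ)) f,
        (eval_continuous f).comp ((h.continuous s).comp (dirac_continuous.subtype_mk _))⟩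
      map_add' := fun f g => by
        ext k; exact map_add (r s ⟨dirac k, hδ k⟩ : WeakDual ℝ C(K, ℝ)) f g
      map_smul' := fun c f => by
        ext k; exact map_smul (r s ⟨dirac k, hδ k⟩ : WeakDual ℝ C(K, ℝ)) c f } 1
    (fun f => by
      rw [one_mul]
      refine (ContinuousMap.norm_le _ (norm_nonneg f)).2 fun k => ?_
      exact hb _ (r s ⟨dirac k, hδ k⟩).2 f)

theorem proj_apply (hδ : ∀ k, dirac k ∈ L) (hb : ∀ φ ∈ L, ∀ f : C(K, ℝ), |φ f| ≤ ‖f‖)
    (h : IsRSkeleton r) (s : Γ) (f : C(K, ℝ)) (k : K) :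
    proj hδ hb h s f k = (r s ⟨dirac k, hδ k⟩ : WeakDual ℝ C(K, ℝ)) f := rfl

/-- From an r-skeleton in a set of functionals to a 1-projectional skeleton. -/
theorem main (hL : IsCompact L) (hδ : ∀ k, dirac k ∈ L)
    (hb : ∀ φ ∈ L, ∀ f : C(K, ℝ), |φ f| ≤ ‖f‖)
    (h : IsRSkeleton r) (A : Set (ℝ × ℝ))
    (hAL : ∀ p ∈ A, ∀ x y : L, p.1 • (x : WeakDual ℝ C(K, ℝ)) + p.2 • (y : WeakDual ℝ C(K, ℝ)) ∈ L)
    (hAD : ∀ (p : A) (x y : L), (∃ s, x ∈ range (r s)) → (∃ s, y ∈ range (r s)) →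
      ∃ s, comb A hAL p x y ∈ range (r s))
    (hA0 : (0 : WeakDual ℝ C(K, ℝ)) ∈ L → ((0 : ℝ), (0 : ℝ)) ∈ A)
    (hdense : ∀ S : Set (WeakDual ℝ C(K, ℝ)), S ⊆ L → IsClosed S →
      (∀ p ∈ A, ∀ x ∈ S, ∀ y ∈ S, p.1 • x + p.2 • y ∈ S) → (∀ k, dirac k ∈ S) →
      ((0 : WeakDual ℝ C(K, ℝ)) ∈ L → (0 : WeakDual ℝ C(K, ℝ)) ∈ S) → L ⊆ S) :
    ∃ (Γ' : Type v) (_ : PartialOrder Γ') (P : Γ' → C(K, ℝ) →L[ℝ] C(K, ℝ)),
      IsOneProjSkeleton P := by
  have : CompactSpace L := isCompact_iff_compactSpace.1 hL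
  let Γ' : Type v := {t : Γ // ∀ p x y, r t (comb A hAL p x y) = comb A hAL p (r t x) (r t y)}
  have hcof : ∀ s0 : Γ, ∃ t : Γ', s0 ≤ t.1 := fun s0 => by
    obtain ⟨t, h1, h2⟩ := exists_hom hL h A hAL hAD s0
    exact ⟨⟨t, h2⟩, h1⟩
  -- the adjoint of `P s` is `r s` on `L`
  have key : ∀ (s : Γ') (φ : L) (f : C(K, ℝ)), (φ : WeakDual ℝ C(K, ℝ)) (proj hδ hb h s.1 f) =
      (r s.1 φ : WeakDual ℝ C(K, ℝ)) f := by
    intro s
    let S : Set (WeakDual ℝ C(K, ℝ)) :=
      Subtype.val '' {φ : L | ∀ f, (φ : WeakDual ℝ C(K, ℝ)) (proj hδ hb h s.1 f) =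
        (r s.1 φ : WeakDual ℝ C(K, ℝ)) f}
    have hScl : IsClosed {φ : L | ∀ f, (φ : WeakDual ℝ C(K, ℝ)) (proj hδ hb h s.1 f) =
        (r s.1 φ : WeakDual ℝ C(K, ℝ)) f} := by
      rw [Set.ofPred_forall]
      exact isClosed_iInter fun f => isClosed_eq (eval_continuous _)
        ((eval_continuous f).comp (h.continuous s.1))
    have hSL : L ⊆ S := by
      refine hdense S ?_ ?_ ?_ ?_ ?_
      · rintro _ ⟨φ, -, rfl⟩
        exact φ.2
      · exact (hScl.isCompact.image continuous_subtype_val).isClosed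
      · rintro p hp _ ⟨x, hx, rfl⟩ _ ⟨y, hy, rfl⟩
        refine ⟨comb A hAL ⟨p, hp⟩ x y, fun f => ?_, rfl⟩
        rw [s.2, comb_apply, comb_apply, hx f, hy f]
      · intro k
        exact ⟨⟨dirac k, hδ k⟩, fun f => by rw [dirac_apply, proj_apply], rfl⟩
      · intro h0
        refine ⟨⟨0, h0⟩, fun f => ?_, rfl⟩
        have e1 := s.2 ⟨(0, 0), hA0 h0⟩ ⟨0, h0⟩ ⟨0, h0⟩
        have e2 : comb A hAL ⟨(0, 0), hA0 h0⟩ ⟨0, h0⟩ ⟨0, h0⟩ = ⟨0, h0⟩ := by
          apply Subtype.ext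
          show (0 : ℝ) • (0 : WeakDual ℝ C(K, ℝ)) + (0 : ℝ) • (0 : WeakDual ℝ C(K, ℝ)) = 0
          simp
        rw [e2] at e1
        rw [e1, comb_apply]
        show (0 : ℝ) = _
        ring
    intro φ f
    obtain ⟨φ', hφ', he⟩ := hSL φ.2
    have : φ' = φ := Subtype.ext he
    rw [← this]
    exact hφ' f
  have hcl : ∀ s t : Γ', s.1 ≤ t.1 → ∀ f, proj hδ hb h s.1 (proj hδ hb h t.1 f) =
      proj hδ hb h s.1 f := by
    intro s t hst f
    ext k
    rw [proj_apply, key t, h.comp_right _ _ hst, proj_apply]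
  have hcr : ∀ s t : Γ', s.1 ≤ t.1 → ∀ f, proj hδ hb h t.1 (proj hδ hb h s.1 f) =
      proj hδ hb h s.1 f := by
    intro s t hst f
    ext k
    rw [proj_apply, key s, h.comp_left _ _ hst, proj_apply]
  have hid : ∀ (s : Γ') f, proj hδ hb h s.1 (proj hδ hb h s.1 f) = proj hδ hb h s.1 f :=
    fun s => hcl s s le_rfl
  refine ⟨Γ', inferInstance, fun s => proj hδ hb h s.1, ?_⟩
  refine
    { nonempty := ?_, directed := ?_, idem := hid, norm_le := ?_, separable := ?_, cover := ?_,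
      comp_left := fun s t hst => hcl s t hst, comp_right := fun s t hst => hcr s t hst,
      sup := ?_ }
  · obtain ⟨t, -⟩ := hcof (Classical.choice h.nonempty)
    exact ⟨t⟩
  · intro s t
    obtain ⟨u, hu1, hu2⟩ := h.directed s.1 t.1
    obtain ⟨w, hw⟩ := hcof u
    exact ⟨w, hu1.trans hw, hu2.trans hw⟩
  · intro s
    exact LinearMap.mkContinuous_norm_le _ zero_le_one _
  · -- separability
    intro s
    have := h.metrizable s.1
    let _ := TopologicalSpace.metrizableSpaceMetric (range (r s.1))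
    have : CompactSpace (range (r s.1)) :=
      isCompact_iff_compactSpace.1 (isCompact_range (h.continuous s.1))
    let J : C(K, ℝ) → C(range (r s.1), ℝ) := fun f =>
      ⟨fun y => (y.1 : WeakDual ℝ C(K, ℝ)) f, (eval_continuous f).comp continuous_subtype_val⟩
    have hJ : ∀ f g, f ∈ range (proj hδ hb h s.1) → g ∈ range (proj hδ hb h s.1) →
        dist f g ≤ dist (J f) (J g) := by
      rintro _ _ ⟨f, rfl⟩ ⟨g, rfl⟩
      rw [ContinuousMap.dist_le dist_nonneg]
      intro k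
      have h1 := ContinuousMap.dist_apply_le_dist (f := J (proj hδ hb h s.1 f))
        (g := J (proj hδ hb h s.1 g)) ⟨r s.1 ⟨dirac k, hδ k⟩, _, rfl⟩
      have h2 : ∀ g, J (proj hδ hb h s.1 g) ⟨r s.1 ⟨dirac k, hδ k⟩, _, rfl⟩ =
          proj hδ hb h s.1 g k := by
        intro g
        show (r s.1 ⟨dirac k, hδ k⟩ : WeakDual ℝ C(K, ℝ)) (proj hδ hb h s.1 g) = _
        rw [key s, h.idem, proj_apply]
      rwa [h2, h2] at h1
    have hsep2 : TopologicalSpace.IsSeparable (range (proj hδ hb h s.1)) := by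
      let Jr : range (proj hδ hb h s.1) → C(range (r s.1), ℝ) := fun f => J f.1
      have hanti : AntilipschitzWith 1 Jr := by
        refine AntilipschitzWith.of_le_mul_dist fun f g => ?_
        rw [NNReal.coe_one, one_mul]
        exact hJ f.1 g.1 f.2 g.2
      have hlip : LipschitzWith 1 Jr := by
        refine LipschitzWith.of_dist_le_mul fun f g => ?_
        rw [NNReal.coe_one, one_mul, ContinuousMap.dist_le dist_nonneg]
        intro y
        show dist ((y.1 : WeakDual ℝ C(K, ℝ)) f.1) ((y.1 : WeakDual ℝ C(K, ℝ)) g.1) ≤ _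
        rw [Real.dist_eq, ← map_sub]
        refine (hb _ y.1.2 _).trans ?_
        rw [Subtype.dist_eq, dist_eq_norm]
      have hind : IsInducing Jr := (hanti.isUniformInducing hlip.uniformContinuous).isInducing
      have : SecondCountableTopology (range (proj hδ hb h s.1)) := hind.secondCountableTopology
      exact TopologicalSpace.IsSeparable.of_subtype _
    exact hsep2
  · -- cover
    refine eq_univ_of_forall fun f => ?_
    obtain ⟨s0, hs0⟩ := eventually_fix h ⟨fun x : L => (x : WeakDual ℝ C(K, ℝ)) f,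
      eval_continuous f⟩
    obtain ⟨t, ht⟩ := hcof s0
    refine mem_iUnion.2 ⟨t, f, ?_⟩
    ext k
    rw [proj_apply]
    exact hs0 t.1 ht ⟨dirac k, hδ k⟩
  · -- suprema
    intro s hs
    obtain ⟨t, ht, htl⟩ := h.sup (fun n => (s n).1) (fun m n hmn => hs hmn)
    have htΓ : ∀ p x y, r t (comb A hAL p x y) = comb A hAL p (r t x) (r t y) := by
      intro p x y
      refine tendsto_nhds_unique (htl _) ?_
      refine (comb_tendsto A hAL p (htl x) (htl y)).congr fun n => ?_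
      exact ((s n).2 p x y).symm
    refine ⟨⟨t, htΓ⟩, ⟨?_, ?_⟩, ?_⟩
    · rintro _ ⟨n, rfl⟩
      exact ht.1 ⟨n, rfl⟩
    · intro w hw
      refine ht.2 ?_
      rintro _ ⟨n, rfl⟩
      exact hw ⟨n, rfl⟩
    have hle : ∀ n, (s n).1 ≤ t := fun n => ht.1 ⟨n, rfl⟩
    apply Subset.antisymm
    · rintro _ ⟨f, rfl⟩
      -- uniform convergence on the range of `r t`
      have : CompactSpace (range (r t)) :=
        isCompact_iff_compactSpace.1 (isCompact_range (h.continuous t))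
      let ρ : ℕ → range (r t) → range (r t) := fun n y =>
        ⟨r (s n).1 y.1, r (s n).1 y.1, h.comp_right _ _ (hle n) y.1⟩
      have hρ := unif_approx (ι := ℕ) ⟨0⟩ (fun i j => ⟨max i j, le_max_left _ _, le_max_right _ _⟩)
        ρ (fun n => ((h.continuous _).comp continuous_subtype_val).subtype_mk _)
        (fun i j hij y => Subtype.ext (h.comp_left _ _ (hs.monotone hij) y.1))
        (fun y => by
          rw [tendsto_subtype_rng]
          have h1 := htl y.1
          rwa [(mem_range_iff h t y.1).1 y.2] at h1)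
        ⟨fun y => (y.1 : WeakDual ℝ C(K, ℝ)) f, (eval_continuous f).comp continuous_subtype_val⟩
      rw [Metric.mem_closure_iff]
      intro ε hε
      obtain ⟨n, hn⟩ := hρ (ε / 2) (by linarith)
      refine ⟨proj hδ hb h (s n).1 f, mem_iUnion.2 ⟨n, f, rfl⟩, ?_⟩
      refine lt_of_le_of_lt ((ContinuousMap.dist_le (by linarith : (0 : ℝ) ≤ ε / 2)).2 fun k => ?_)
        (by linarith : ε / 2 < ε)
      have h1 := (hn n le_rfl ⟨r t ⟨dirac k, hδ k⟩, _, rfl⟩).le
      rw [dist_comm, Real.dist_eq]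
      have h2 : proj hδ hb h (s n).1 f k =
          ((ρ n ⟨r t ⟨dirac k, hδ k⟩, _, rfl⟩).1 : WeakDual ℝ C(K, ℝ)) f := by
        show _ = (r (s n).1 (r t ⟨dirac k, hδ k⟩) : WeakDual ℝ C(K, ℝ)) f
        rw [h.comp_left _ _ (hle n), proj_apply]
      rw [h2]
      exact h1
    · refine closure_minimal (iUnion_subset fun n => ?_) ?_
      · rintro _ ⟨f, rfl⟩
        exact ⟨proj hδ hb h (s n).1 f, hcr (s n) ⟨t, htΓ⟩ (hle n) f⟩
      · have : range (proj hδ hb h t) = {f | proj hδ hb h t f = f} := by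
          ext f
          constructor
          · rintro ⟨g, rfl⟩
            exact hid ⟨t, htΓ⟩ g
          · intro hf
            exact ⟨f, hf⟩
        show IsClosed (range (proj hδ hb h t))
        rw [this]
        exact isClosed_eq (proj hδ hb h t).continuous continuous_id

end Pool.Agent.U682.SkC
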