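import Pool.Agent.U682.SkC

set_option autoImplicit false

open Topology Filter Set

namespace Pool.Agent.U682.SkD

open Pool.Agent.U682.SkA Pool.Agent.U682.SkB Pool.Agent.U682.SkC

universe u v w

variable {K : Type u} [TopologicalSpace K] [CompactSpace K] [T2Space K]

/-- evaluation as a linear map -/
noncomputable def evalLin (f : C(K, ℝ)) : WeakDual ℝ C(K, ℝ) →ₗ[ℝ] ℝ where
  toFun φ := φ f
  map_add' _ _ := rfl
  map_smul' _ _ := rfl

theorem sum_smul_apply {t : Finset K} (c : t → ℝ) (f : C(K, ℝ)) :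
    (∑ i : t, c i • dirac (i : K)) f = ∑ i : t, c i * f i := by
  have : evalLin f (∑ i : t, c i • dirac (i : K)) = ∑ i : t, c i * f i := by
    rw [map_sum]
    rfl
  exact this

theorem exists_approx (φ : WeakDual ℝ C(K, ℝ)) (hφ : ∀ f : C(K, ℝ), |φ f| ≤ ‖f‖)
    (T : Finset C(K, ℝ)) (ε : ℝ) (hε : 0 < ε) :
    ∃ (t : Finset K) (ρ : t → C(K, ℝ)), (∀ i, 0 ≤ ρ i) ∧ ∑ i, ρ i = 1 ∧
      ∀ f ∈ T, |∑ i, φ (ρ i) * f i - φ f| ≤ ε := by
  classical
  obtain ⟨t, -, ht⟩ := isCompact_univ.elim_nhds_subcover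
    (fun x : K => {y : K | ∀ f ∈ T, |f y - f x| < ε}) (fun x _ => by
      have : {y : K | ∀ f ∈ T, |f y - f x| < ε} = ⋂ f ∈ T, {y | |f y - f x| < ε} := by
        ext y; simp
      rw [this, Finset.iInter_mem_sets]
      intro f _
      have hc : Continuous (fun y => |f y - f x|) := by fun_prop
      refine (isOpen_lt hc continuous_const).mem_nhds ?_
      simpa using hε)
  have hU : ∀ i : t, IsOpen {y : K | ∀ f ∈ T, |f y - f i| < ε} := by
    intro i
    have : {y : K | ∀ f ∈ T, |f y - f i| < ε} = ⋂ f ∈ T, {y | |f y - f i| < ε} := by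
      ext y; simp
    rw [this]
    refine isOpen_biInter_finset fun f _ => ?_
    have hc : Continuous (fun y => |f y - f i|) := by fun_prop
    exact isOpen_lt hc continuous_const
  obtain ⟨ρ, hρ⟩ := PartitionOfUnity.exists_isSubordinate (isClosed_univ (X := K))
    (fun i : t => {y : K | ∀ f ∈ T, |f y - f i| < ε}) hU (by
      intro x hx
      obtain ⟨y, hy, hxy⟩ := mem_iUnion₂.1 (ht hx)
      exact mem_iUnion.2 ⟨⟨y, hy⟩, hxy⟩)
  have hsum : ∀ x, ∑ i, ρ i x = 1 := by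
    intro x
    have := ρ.sum_eq_one (mem_univ x)
    rwa [finsum_eq_sum_of_fintype] at this
  refine ⟨t, fun i => ρ i, fun i x => ρ.nonneg i x, ?_, ?_⟩
  · ext x
    rw [ContinuousMap.sum_apply]
    exact hsum x
  · intro f hf
    have e1 : ∑ i : t, φ (ρ i) * f i - φ f = φ (∑ i : t, f (i : K) • ρ i - f) := by
      rw [map_sub, map_sum]
      congr 1
      refine Finset.sum_congr rfl fun i _ => ?_
      rw [map_smul, smul_eq_mul, mul_comm]
    rw [e1]
    refine (hφ _).trans ((ContinuousMap.norm_le _ hε.le).2 fun x => ?_)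
    have e2 : (∑ i : t, f (i : K) • ρ i - f) x = ∑ i : t, ρ i x * (f (i : K) - f x) := by
      rw [ContinuousMap.sub_apply, ContinuousMap.sum_apply]
      simp only [ContinuousMap.smul_apply, smul_eq_mul, mul_sub, Finset.sum_sub_distrib,
        ← Finset.sum_mul, hsum x, one_mul]
      congr 1
      exact Finset.sum_congr rfl fun i _ => mul_comm _ _
    rw [e2, Real.norm_eq_abs]
    calc |∑ i : t, ρ i x * (f (i : K) - f x)| ≤ ∑ i : t, |ρ i x * (f (i : K) - f x)| :=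
          Finset.abs_sum_le_sum_abs _ _
      _ ≤ ∑ i : t, ρ i x * ε := by
          refine Finset.sum_le_sum fun i _ => ?_
          rw [abs_mul, abs_of_nonneg (ρ.nonneg i x)]
          by_cases h0 : ρ i x = 0
          · rw [h0]; simp
          · have hx : x ∈ {y : K | ∀ f ∈ T, |f y - f i| < ε} :=
              hρ i (subset_closure (Function.mem_support.2 h0))
            have := hx f hf
            rw [abs_sub_comm] at this
            exact mul_le_mul_of_nonneg_left this.le (ρ.nonneg i x)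
      _ = ε := by rw [← Finset.sum_mul, hsum x, one_mul]

theorem mem_of_approx (S : Set (WeakDual ℝ C(K, ℝ))) (hS : IsClosed S) (φ : WeakDual ℝ C(K, ℝ))
    (h : ∀ T : Finset C(K, ℝ), ∀ ε : ℝ, 0 < ε → ∃ ψ ∈ S, ∀ f ∈ T, |ψ f - φ f| ≤ ε) : φ ∈ S := by
  classical
  choose ψ hψ1 hψ2 using fun q : Finset C(K, ℝ) × ℕ =>
    h q.1 (1 / ((q.2 : ℝ) + 1)) (by positivity)
  refine hS.mem_of_tendsto (f := ψ) (b := atTop) ?_ (Eventually.of_forall hψ1)
  rw [tendsto_iff_forall_eval_tendsto_topDualPairing]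
  intro f
  show Tendsto (fun q => ψ q f) atTop (𝓝 (φ f))
  rw [Metric.tendsto_atTop]
  intro ε hε
  obtain ⟨n, hn⟩ := exists_nat_one_div_lt hε
  refine ⟨({f}, n), fun q hq => ?_⟩
  have h1 : f ∈ q.1 := hq.1 (by simp)
  have h2 : n ≤ q.2 := hq.2
  rw [Real.dist_eq]
  refine lt_of_le_of_lt (hψ2 q f h1) (lt_of_le_of_lt ?_ hn)
  have : (n : ℝ) ≤ q.2 := by exact_mod_cast h2
  exact one_div_le_one_div_of_le (by positivity) (by linarith)

/-- weights of convex combinations -/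
def A1 : Set (ℝ × ℝ) := {p | 0 ≤ p.1 ∧ 0 ≤ p.2 ∧ p.1 + p.2 = 1}

/-- weights of absolutely convex combinations -/
def A2 : Set (ℝ × ℝ) := {p | |p.1| + |p.2| ≤ 1}

theorem A1_sub_A2 : A1 ⊆ A2 := by
  rintro p ⟨h1, h2, h3⟩
  show |p.1| + |p.2| ≤ 1
  rw [abs_of_nonneg h1, abs_of_nonneg h2, h3]

theorem convex_of_A1 {S : Set (WeakDual ℝ C(K, ℝ))}
    (h : ∀ p ∈ A1, ∀ x ∈ S, ∀ y ∈ S, p.1 • x + p.2 • y ∈ S) : Convex ℝ S :=
  fun x hx y hy a b ha hb hab => h (a, b) ⟨ha, hb, hab⟩ x hx y hy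

theorem dense1 (S : Set (WeakDual ℝ C(K, ℝ))) (hS : IsClosed S)
    (hA : ∀ p ∈ A1, ∀ x ∈ S, ∀ y ∈ S, p.1 • x + p.2 • y ∈ S) (hδ : ∀ k, dirac k ∈ S)
    (φ : WeakDual ℝ C(K, ℝ)) (hb : ∀ f : C(K, ℝ), |φ f| ≤ ‖f‖)
    (hpos : ∀ f : C(K, ℝ), 0 ≤ f → 0 ≤ φ f) (h1 : φ 1 = 1) : φ ∈ S := by
  refine mem_of_approx S hS φ fun T ε hε => ?_
  obtain ⟨t, ρ, hρ0, hρ1, hρ⟩ := exists_approx φ hb T ε hε
  refine ⟨∑ i, φ (ρ i) • dirac (i : K), ?_, fun f hf => ?_⟩
  · refine (convex_of_A1 hA).sum_mem (fun i _ => hpos _ (hρ0 i)) ?_ (fun i _ => hδ _)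
    rw [← map_sum, hρ1, h1]
  · rw [sum_smul_apply]
    exact hρ f hf

theorem dense2 (S : Set (WeakDual ℝ C(K, ℝ))) (hS : IsClosed S)
    (hA : ∀ p ∈ A2, ∀ x ∈ S, ∀ y ∈ S, p.1 • x + p.2 • y ∈ S) (hδ : ∀ k, dirac k ∈ S)
    (h0 : (0 : WeakDual ℝ C(K, ℝ)) ∈ S)
    (φ : WeakDual ℝ C(K, ℝ)) (hb : ∀ f : C(K, ℝ), |φ f| ≤ ‖f‖) : φ ∈ S := by
  have hconv : Convex ℝ S := convex_of_A1 fun p hp => hA p (A1_sub_A2 hp)
  have hneg : ∀ x ∈ S, -x ∈ S := by
    intro x hx
    have := hA (-1, 0) (by show |(-1 : ℝ)| + |(0 : ℝ)| ≤ 1; norm_num) x hx x hx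
    simpa using this
  refine mem_of_approx S hS φ fun T ε hε => ?_
  obtain ⟨t, ρ, hρ0, hρ1, hρ⟩ := exists_approx φ hb T ε hε
  refine ⟨∑ i, φ (ρ i) • dirac (i : K), ?_, fun f hf => ?_⟩
  · let y : t → WeakDual ℝ C(K, ℝ) := fun i => if 0 ≤ φ (ρ i) then dirac (i : K) else -dirac (i : K)
    have hy : ∀ i, y i ∈ S := by
      intro i
      simp only [y]
      split_ifs
      · exact hδ _
      · exact hneg _ (hδ _)
    have e1 : ∑ i, φ (ρ i) • dirac (i : K) = ∑ i, |φ (ρ i)| • y i := by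
      refine Finset.sum_congr rfl fun i _ => ?_
      simp only [y]
      split_ifs with hi
      · rw [abs_of_nonneg hi]
      · rw [abs_of_neg (not_le.1 hi), smul_neg, neg_smul, neg_neg]
    rw [e1]
    set W := ∑ i, |φ (ρ i)| with hW
    have hW0 : 0 ≤ W := Finset.sum_nonneg fun i _ => abs_nonneg _
    have hW1 : W ≤ 1 := by
      let σ : t → ℝ := fun i => if 0 ≤ φ (ρ i) then 1 else -1
      have e2 : W = φ (∑ i, σ i • ρ i) := by
        rw [map_sum, hW]
        refine Finset.sum_congr rfl fun i _ => ?_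
        rw [map_smul, smul_eq_mul]
        simp only [σ]
        split_ifs with hi
        · rw [abs_of_nonneg hi, one_mul]
        · rw [abs_of_neg (not_le.1 hi)]; ring
      rw [e2]
      refine (le_abs_self _).trans ((hb _).trans ((ContinuousMap.norm_le _ zero_le_one).2 fun x => ?_))
      rw [ContinuousMap.sum_apply, Real.norm_eq_abs]
      calc |∑ i, (σ i • ρ i) x| ≤ ∑ i, |(σ i • ρ i) x| := Finset.abs_sum_le_sum_abs _ _
        _ = ∑ i, ρ i x := by
            refine Finset.sum_congr rfl fun i _ => ?_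
            have h5 : |ρ i x| = ρ i x := abs_of_nonneg (hρ0 i x)
            rw [ContinuousMap.smul_apply, smul_eq_mul, abs_mul, h5]
            simp only [σ]
            split_ifs <;> simp
        _ = (∑ i, ρ i) x := by rw [ContinuousMap.sum_apply]
        _ = 1 := by rw [hρ1]; rfl
    rcases hW0.eq_or_lt with h | h
    · have : ∀ i, |φ (ρ i)| = 0 := by
        intro i
        have := (Finset.sum_eq_zero_iff_of_nonneg (fun i _ => abs_nonneg (φ (ρ i)))).1
          (hW.symm.trans h.symm) i (Finset.mem_univ _)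
        exact this
      simp only [this, zero_smul, Finset.sum_const_zero]
      exact h0
    · have e3 : ∑ i, |φ (ρ i)| • y i = W • ∑ i, (|φ (ρ i)| / W) • y i := by
        rw [Finset.smul_sum]
        refine Finset.sum_congr rfl fun i _ => ?_
        rw [smul_smul, mul_div_cancel₀ _ h.ne']
      rw [e3]
      refine hconv.smul_mem_of_zero_mem h0 ?_ ⟨hW0, hW1⟩
      refine hconv.sum_mem (fun i _ => div_nonneg (abs_nonneg _) hW0) ?_ (fun i _ => hy i)
      rw [← Finset.sum_div, ← hW, div_self h.ne']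
  · rw [sum_smul_apply]
    exact hρ f hf

end Pool.Agent.U682.SkD
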